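import Pool.Agent.Lib.MP_5d54af_an.Main

set_option autoImplicit false

open Metric Filter Topology Set Asymptotics

namespace Pool.Agent.Lib.MP_5d54af_an.Sharp

theorem poisson_upper {F : ℂ → ℂ} (hF : Differentiable ℂ F) {s B : ℝ} {w : ℂ} (hw : ‖w‖ < s)
    (hB : Real.circleAverage (fun z => max (F z).re 0) 0 s ≤ B) :
    (F w).re ≤ (s + ‖w‖) / (s - ‖w‖) * B := by
  have hs : 0 < s := (norm_nonneg w).trans_lt hw
  set u : ℂ → ℝ := fun z => (F z).re with hu
  have huc : Continuous u := Complex.continuous_re.comp hF.continuous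
  have hharm : InnerProductSpace.HarmonicOnNhd u (closedBall 0 s) :=
    fun x _ => (hF.analyticAt x).harmonicAt_re
  have hwb : w ∈ ball (0 : ℂ) s := mem_ball_zero_iff.2 hw
  have hP := hharm.circleAverage_re_herglotzRieszKernel_smul hwb
  set C := (s + ‖w‖) / (s - ‖w‖) with hC
  have hC0 : 0 ≤ C := div_nonneg (by positivity) (by linarith)
  have hK : ∀ z ∈ sphere (0 : ℂ) |s|, 0 ≤ (herglotzRieszKernel 0 w z).re ∧
      (herglotzRieszKernel 0 w z).re ≤ C := by
    intro z hz
    rw [abs_of_pos hs] at hz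
    have h1 := re_herglotzRieszKernel_le hz hwb
    have h2 := le_re_herglotzRieszKernel hz hwb
    rw [herglotzRieszKernel_def]
    simp only [sub_zero] at h1 h2 ⊢
    exact ⟨le_trans (div_nonneg (by linarith) (by positivity)) h2, h1⟩
  have hKc : ContinuousOn (Complex.re ∘ herglotzRieszKernel 0 w) (sphere (0 : ℂ) |s|) :=
    Complex.continuous_re.comp_continuousOn (continuousOn_herglotzRieszKernel_sphere hwb)
  have hint : CircleIntegrable ((Complex.re ∘ herglotzRieszKernel 0 w) • u) 0 s :=
    (hKc.smul huc.continuousOn).circleIntegrable'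
  have h1 : Real.circleAverage ((Complex.re ∘ herglotzRieszKernel 0 w) • u) 0 s ≤
      Real.circleAverage (fun z => C • (max (u z) 0)) 0 s := by
    refine Real.circleAverage_mono hint ?_ ?_
    · have : Continuous fun z => C • (max (u z) 0) := by fun_prop
      exact this.continuousOn.circleIntegrable'
    · intro z hz
      obtain ⟨k1, k2⟩ := hK z hz
      simp only [smul_eq_mul, Pi.smul_apply', Function.comp_apply]
      rcases le_total (u z) 0 with h | h
      · rw [max_eq_right h]; nlinarith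
      · rw [max_eq_left h]; nlinarith
  rw [hP, Real.circleAverage_fun_smul] at h1
  simp only [smul_eq_mul] at h1
  have := mul_le_mul_of_nonneg_left hB hC0
  linarith

/-- If a section has no zero in a disc where the remainder is small and carried by its first term,
then the function is not much smaller than the remainder in a slightly smaller disc. -/
theorem lower_bound {a : ℕ → ℂ} {g : ℂ → ℂ} (hg : Differentiable ℂ g)
    (h : ∀ z : ℂ, HasSum (fun k : ℕ => a k * z ^ k) (Complex.exp (g z))) {n : ℕ}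
    {s s' M c D : ℝ} (hs'0 : 0 < s') (hss : s' < s) (hM : 0 ≤ M)
    (hgM : ∀ z : ℂ, ‖z‖ ≤ s → ‖g z‖ ≤ M) (hc0 : c ≤ 0) (hcM : -M ≤ c)
    (hTle : ∀ z : ℂ, ‖z‖ ≤ s →
      ‖Complex.exp (g z) - ∑ k ∈ Finset.range (n + 1), a k * z ^ k‖ ≤ Real.exp c)
    (hS : ∀ z : ℂ, ‖z‖ ≤ s → ∑ k ∈ Finset.range (n + 1), a k * z ^ k ≠ 0)
    (hτ : (s' / s) ^ (n + 1) = 1 / (8 * (M + 1)))
    (ha : Real.exp (c - D) ≤ ‖a (n + 1)‖ * s ^ (n + 1)) {w : ℂ} (hw : ‖w‖ < s') :
    c - (g w).re ≤ (s' + ‖w‖) / (s' - ‖w‖) * (D + Real.log (8 * (M + 1))) := by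
  have hs0 : 0 < s := hs'0.trans hss
  set f : ℂ → ℂ := fun z => Complex.exp (g z) with hf
  have hd : Differentiable ℂ f := hg.cexp
  have hne : ∀ z, f z ≠ 0 := fun z => Complex.exp_ne_zero _
  have hpos : ∀ z, 0 < ‖f z‖ := fun z => norm_pos_iff.2 (hne z)
  have hnf : ∀ z, ‖f z‖ = Real.exp (g z).re := fun z => Complex.norm_exp _
  have hre : ∀ z : ℂ, ‖z‖ ≤ s → -M ≤ (g z).re := fun z hz =>
    (abs_le.1 ((Complex.abs_re_le_norm _).trans (hgM z hz))).1
  have haN : a (n + 1) ≠ 0 := by
    intro h1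
    rw [h1, norm_zero, zero_mul] at ha
    exact absurd ha (not_le.2 (Real.exp_pos _))
  set T : ℂ → ℂ := fun z => f z - ∑ k ∈ Finset.range (n + 1), a k * z ^ k with hT
  have hTd : Differentiable ℂ T := by
    simp only [hT]
    fun_prop
  set φ : ℂ → ℂ := fun z => ∑' k : ℕ, a (k + (n + 1)) * z ^ k with hφ
  have hφs : ∀ z, HasSum (fun k : ℕ => a (k + (n + 1)) * z ^ k) (φ z) :=
    fun z => (shift_summable (f := f) h (n + 1) z).hasSum
  have hφd : Differentiable ℂ φ := diff_of_hasSum hφs
  have hφ0 : φ 0 = a (n + 1) := by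
    have h2 : HasSum (fun k : ℕ => a (k + (n + 1)) * (0 : ℂ) ^ k)
        (a (0 + (n + 1)) * (0 : ℂ) ^ 0) := hasSum_single 0 (fun k hk => by simp [hk])
    rw [(hφs 0).unique h2]; simp
  have hTφ : ∀ z, T z = z ^ (n + 1) * φ z := by
    intro z
    have h1 := (hasSum_nat_add_iff' (n + 1)).2 (h z)
    have h2 := (hφs z).mul_left (z ^ (n + 1))
    refine h1.unique ?_
    have e : (fun k : ℕ => a (k + (n + 1)) * z ^ (k + (n + 1))) =
        fun k : ℕ => z ^ (n + 1) * (a (k + (n + 1)) * z ^ k) := by
      funext k; ring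
    rw [e]
    exact h2
  have hcore : ∀ z : ℂ, ‖z‖ = s' → ‖T z‖ ≤ ‖f z‖ := by
    intro z hz
    have h1 : ‖T z / f z‖ ≤ 1 := by
      refine core (h := fun z => T z / f z) (s := s) (M := M + 1) (τ := 1 / (8 * (M + 1))) (n := n)
        hs0 (by positivity) (hTd.div hd hne).differentiableOn ?_ ?_ ?_ ?_ ?_ ?_ ?_
      · intro v hv h2
        rw [div_eq_one_iff_eq (hne v)] at h2
        simp only [hT] at h2
        exact hS v (mem_ball_zero_iff.1 hv).le (sub_eq_self.1 h2)
      · have h2 : (fun z => T z / f z) = fun z => z ^ (n + 1) * (φ z / f z) := by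
          funext v; rw [hTφ, mul_div_assoc]
        rw [h2]
        have h3 : (fun z => φ z / f z) =O[𝓝 0] (fun _ : ℂ => (1 : ℂ)) :=
          ((hφd.div hd hne).continuous.continuousAt.tendsto).isBigO_one ℂ
        simpa using (isBigO_refl (fun z : ℂ => z ^ (n + 1)) (𝓝 0)).mul h3
      · intro v hv
        have hv' := (mem_ball_zero_iff.1 hv).le
        have h4 : ‖T v / f v‖ ≤ Real.exp M := by
          rw [norm_div, div_le_iff₀ (hpos v), hnf, ← Real.exp_add]
          refine (hTle v hv').trans ?_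
          rw [Real.exp_le_exp]
          linarith [hre v hv']
        have h5 : 1 ≤ Real.exp M := Real.one_le_exp hM
        have h6 : (2 : ℝ) ≤ Real.exp 1 := by linarith [Real.add_one_le_exp 1]
        calc ‖1 - T v / f v‖ ≤ ‖(1 : ℂ)‖ + ‖T v / f v‖ := norm_sub_le _ _
          _ ≤ Real.exp M * 2 := by rw [norm_one]; linarith
          _ ≤ Real.exp M * Real.exp 1 := by gcongr
          _ = _ := by rw [Real.exp_add]
      · rw [div_le_div_iff₀ (by positivity) (by norm_num)]; linarith
      · exact le_of_eq (by field_simp)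
      · rw [mem_ball_zero_iff, hz]; exact hss
      · rw [hz, hτ]
    rwa [norm_div, div_le_one (hpos z)] at h1
  set C : ℝ := Real.exp M * s' ^ (n + 1) with hC
  have hC0 : 0 < C := by positivity
  set ψ : ℂ → ℂ := fun z => (C : ℂ) * φ z with hψ
  have hψd : Differentiable ℂ ψ := hφd.const_mul _
  have hψ0 : ψ 0 ≠ 0 := by
    simp only [hψ, hφ0]
    exact mul_ne_zero (by exact_mod_cast hC0.ne') haN
  have hJ := jensen_ineq hψd hψ0 hs'0
  set F : ℂ → ℂ := fun z => (c : ℂ) - g z with hF
  have hFd : Differentiable ℂ F := hg.const_sub _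
  have hFre : ∀ z, (F z).re = c - (g z).re := fun z => by simp [hF]
  have huc : Continuous fun z => max (F z).re 0 :=
    (Complex.continuous_re.comp hFd.continuous).max continuous_const
  have hJ2 : Real.circleAverage (fun z => Real.log ‖ψ z‖) 0 s' ≤
      Real.circleAverage (fun z => (M + c) - max (F z).re 0) 0 s' := by
    refine Real.circleAverage_mono ?_ ?_ ?_
    · have : AnalyticOnNhd ℂ ψ (sphere 0 |s'|) := fun z _ => hψd.analyticAt z
      exact this.meromorphicOn.circleIntegrable_log_norm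
    · exact (continuous_const.sub huc).continuousOn.circleIntegrable'
    · intro z hz
      rw [abs_of_pos hs'0, mem_sphere_zero_iff_norm] at hz
      have h1 := hcore z hz
      have h2 : ‖T z‖ ≤ Real.exp c := hTle z (hz.le.trans hss.le)
      have h3 := hre z (hz.le.trans hss.le)
      have h4 : ‖ψ z‖ = Real.exp M * ‖T z‖ := by
        simp only [hψ, hTφ, norm_mul, norm_pow, hz, Complex.norm_real, Real.norm_eq_abs,
          abs_of_pos hC0]
        rw [hC, mul_assoc]
      rw [h4, hFre]
      rcases (norm_nonneg (T z)).eq_or_lt with h5 | h5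
      · rw [← h5, mul_zero, Real.log_zero]
        rcases le_total (c - (g z).re) 0 with h6 | h6
        · rw [max_eq_right h6]; linarith
        · rw [max_eq_left h6]; linarith
      · rw [Real.log_mul (Real.exp_pos _).ne' h5.ne', Real.log_exp]
        rcases le_total (c - (g z).re) 0 with h6 | h6
        · rw [max_eq_right h6]
          have := (Real.log_le_iff_le_exp h5).2 h2
          linarith
        · rw [max_eq_left h6]
          rw [hnf] at h1
          have := (Real.log_le_iff_le_exp h5).2 h1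
          linarith
  rw [Real.circleAverage_fun_sub (circleIntegrable_const _ _ _)
    huc.continuousOn.circleIntegrable', Real.circleAverage_const] at hJ2
  have hlow : M + (c - D) - Real.log (8 * (M + 1)) ≤ Real.log ‖ψ 0‖ := by
    rw [Real.le_log_iff_exp_le (norm_pos_iff.2 hψ0)]
    have h0 : s' ^ (n + 1) = s ^ (n + 1) * (1 / (8 * (M + 1))) := by
      rw [← hτ, ← mul_pow]; congr 1; field_simp
    have h1 : ‖ψ 0‖ = Real.exp M * (‖a (n + 1)‖ * s ^ (n + 1)) / (8 * (M + 1)) := by
      simp only [hψ, hφ0, norm_mul, Complex.norm_real, Real.norm_eq_abs, abs_of_pos hC0]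
      rw [hC, h0]
      ring
    rw [h1, Real.exp_sub, Real.exp_log (by positivity), Real.exp_add]
    gcongr
  rw [← hFre]
  exact poisson_upper hFd hw (by linarith)

end Pool.Agent.Lib.MP_5d54af_an.Sharp
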