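import Pool.Agent.Lib.MP_5d54af_an.Sharp.Mac
import Pool.Agent.Lib.MP_5d54af_an.Sharp.Jen

set_option autoImplicit false

open Metric Filter Topology Set

namespace Pool.Agent.Lib.MP_5d54af_an.Sharp

theorem kernel_bound {s t δ : ℝ} (hs : 0 < s) (hδ : 0 < δ) (ht0 : 0 ≤ t)
    (ht : t ≤ s * Real.exp (-δ)) : t < s ∧ (s + t) / (s - t) ≤ 2 + 2 / δ := by
  have h1 : Real.exp (-δ) * (1 + δ) ≤ 1 := by
    rw [Real.exp_neg, inv_mul_le_iff₀ (Real.exp_pos _)]
    linarith [Real.add_one_le_exp δ]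
  have h2 : t * (1 + δ) ≤ s := by
    calc t * (1 + δ) ≤ s * Real.exp (-δ) * (1 + δ) := by gcongr
      _ = s * (Real.exp (-δ) * (1 + δ)) := by ring
      _ ≤ s * 1 := by gcongr
      _ = s := mul_one _
  have h3 : t < s := by
    rcases ht0.eq_or_lt with h | h
    · linarith
    · nlinarith
  refine ⟨h3, ?_⟩
  rw [div_le_iff₀ (by linarith)]
  have h4 : (2 + 2 / δ) * (s - t) = 2 * ((1 + δ) * (s - t)) / δ := by field_simp; ring
  rw [h4, le_div_iff₀ hδ]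
  nlinarith

theorem turn_window {g : ℂ → ℂ} (hg : Differentiable ℂ g) {Ψ : ℝ → ℝ} {r α e R : ℝ} (hα : 0 < α)
    (hle : ∀ j z, ‖z‖ ≤ r * Real.exp (j / α) → ‖g z‖ ≤ Real.exp (Ψ j))
    (hat : ∀ j, ∃ z, ‖z‖ = r * Real.exp (j / α) ∧ ‖g z‖ = Real.exp (Ψ j))
    (hR : 26 ≤ R) (hRe : 13 / R ≤ e)
    (hwin : ∀ i j, 0 ≤ i → i ≤ j → j ≤ 2 * R + 4 →
      j - i ≤ Ψ j - Ψ i ∧ Ψ j - Ψ i ≤ (1 + 1 / R) * (j - i))
    {j : ℝ} (hj : R ≤ j) (hj' : j ≤ R + 4) {σ : ℂ} (hσ : ‖σ‖ = 1) :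
    ∃ w : ℂ, ‖w‖ = r * Real.exp (j / α) ∧ (1 - e) * Real.exp (Ψ j) ≤ (σ * g w).re := by
  have hR0 : 0 < R := by linarith
  obtain ⟨z, hz, hgz⟩ := hat j
  have hz0 : g z ≠ 0 := norm_pos_iff.1 (by rw [hgz]; exact Real.exp_pos _)
  obtain ⟨w, hw, hw'⟩ := turn hg hz0 hα (R := R) (by linarith) (by
    intro u hu
    have hu' : |α * u.re| ≤ R := by
      rw [abs_mul, abs_of_pos hα]
      rwa [le_div_iff₀ hα, mul_comm] at hu
    obtain ⟨hu1, hu2⟩ := abs_le.1 hu'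
    have h1 := hle (j + α * u.re) (z * Complex.exp u) (by
      rw [norm_mul, Complex.norm_exp, hz, mul_assoc, ← Real.exp_add]
      apply le_of_eq
      congr 2
      field_simp)
    refine h1.trans ?_
    rw [hgz, ← Real.exp_add, Real.exp_le_exp]
    rcases le_total 0 (α * u.re) with hx | hx
    · have h2 := (hwin j (j + α * u.re) (by linarith) (by linarith) (by linarith)).2
      have h3 : 1 / R * (α * u.re) ≤ 1 := by
        rw [one_div, inv_mul_le_iff₀ hR0]; linarith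
      linarith
    · have h2 := (hwin (j + α * u.re) j (by linarith) (by linarith) (by linarith)).1
      linarith) hσ
  refine ⟨w, hw.trans hz, le_trans ?_ hw'⟩
  rw [hgz]
  gcongr

theorem section_bound {a : ℕ → ℂ} {f : ℂ → ℂ}
    (h : ∀ z : ℂ, HasSum (fun k : ℕ => a k * z ^ k) (f z)) {ρ d m : ℝ} (hρ : 0 < ρ) (hd : 0 ≤ d)
    (hm : ∀ z ∈ sphere (0 : ℂ) ρ, ‖f z‖ ≤ Real.exp m) (N : ℕ) {w : ℂ}
    (hw : ‖w‖ = ρ * Real.exp d) :
    ‖∑ k ∈ Finset.range (N + 1), a k * w ^ k‖ ≤ (N + 1) * Real.exp (m + N * d) := by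
  refine (norm_sum_le _ _).trans ?_
  refine (Finset.sum_le_card_nsmul _ _ (Real.exp (m + N * d)) ?_).trans (le_of_eq (by simp))
  intro k hk
  have hk' : (k : ℝ) ≤ N := by exact_mod_cast Nat.lt_succ_iff.1 (Finset.mem_range.1 hk)
  have h6 := cauchy h hρ hm k
  rw [norm_mul, norm_pow, hw, mul_pow, ← mul_assoc, ← Real.exp_nat_mul, Real.exp_add]
  gcongr

theorem small_aux {K Λ e P M : ℝ} (hK : K + 2 ≤ Real.exp Λ) (he : 0 ≤ e) (hΛ : Λ ≤ e * P)
    (hM : P ≤ M) : (K + 2) * Real.exp (-((1 - 6 * e) * M)) ≤ Real.exp (-(1 - 7 * e) * M) := by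
  calc (K + 2) * Real.exp (-((1 - 6 * e) * M))
      ≤ Real.exp Λ * Real.exp (-((1 - 6 * e) * M)) := by gcongr
    _ ≤ _ := by
      rw [← Real.exp_add, Real.exp_le_exp]
      have := mul_le_mul_of_nonneg_left hM he
      linarith

/-- First half: the index and the radius at which its term has the wanted size. -/
theorem index_radius {a : ℕ → ℂ} {g : ℂ → ℂ} (hg : Differentiable ℂ g)
    (h : ∀ z : ℂ, HasSum (fun k : ℕ => a k * z ^ k) (Complex.exp (g z))) (h0 : a 0 = 1)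
    {Ψ : ℝ → ℝ} (hΨc : Continuous Ψ) {r α e R P K Λ : ℝ} (hr : 0 < r) (hα : 0 < α)
    (hle : ∀ j z, ‖z‖ ≤ r * Real.exp (j / α) → ‖g z‖ ≤ Real.exp (Ψ j))
    (hat : ∀ j, ∃ z, ‖z‖ = r * Real.exp (j / α) ∧ ‖g z‖ = Real.exp (Ψ j))
    (he0 : 0 < e) (he : e ≤ 1 / 14) (hR : 26 ≤ R) (hRe : 13 / R ≤ e) (hP : 1 ≤ P)
    (hwin : ∀ i j, 0 ≤ i → i ≤ j → j ≤ 2 * R + 4 →
      j - i ≤ Ψ j - Ψ i ∧ Ψ j - Ψ i ≤ (1 + 1 / R) * (j - i))
    (hPm : P ≤ Real.exp (Ψ (R + 1))) (hK : K = 4 * Real.exp (Ψ (R + 4)) / (1 / α))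
    (hK2 : K + 2 ≤ Real.exp Λ) (hΛ : Λ ≤ e * P)
    (H : ∀ (n : ℕ) (z : ℂ), ‖z‖ ≤ r * Real.exp ((R + 3) / α) →
      ‖Complex.exp (g z) - ∑ k ∈ Finset.range (n + 1), a k * z ^ k‖ ≤
        Real.exp (-(1 - 7 * e) * Real.exp (Ψ (R + 3))) →
      ∑ k ∈ Finset.range (n + 1), a k * z ^ k ≠ 0) :
    ∃ (n : ℕ) (v : ℝ), R + 1 ≤ v ∧ v ≤ R + 3 ∧ P ≤ (n + 1 : ℕ) / α ∧
      ‖a (n + 1)‖ * (r * Real.exp (v / α)) ^ (n + 1) =
        Real.exp (-((1 - 6 * e) * Real.exp (Ψ v)) - 1) ∧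
      ∀ z : ℂ, ‖z‖ ≤ r * Real.exp (v / α) →
        ‖Complex.exp (g z) - ∑ k ∈ Finset.range (n + 1), a k * z ^ k‖ ≤
          (K + 2) * Real.exp (-((1 - 6 * e) * Real.exp (Ψ v))) := by
  have he6 : 0 ≤ 1 - 6 * e := by linarith
  have hmono : ∀ i j, 0 ≤ i → i ≤ j → j ≤ 2 * R + 4 → Real.exp (Ψ i) ≤ Real.exp (Ψ j) := by
    intro i j hi hij hj
    rw [Real.exp_le_exp]
    linarith [(hwin i j hi hij hj).1]
  have hnf : ∀ j z, ‖z‖ ≤ r * Real.exp (j / α) →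
      ‖Complex.exp (g z)‖ ≤ Real.exp (Real.exp (Ψ j)) := by
    intro j z hz
    rw [Complex.norm_exp, Real.exp_le_exp]
    exact (Complex.re_le_norm _).trans (hle j z hz)
  have hrad : ∀ i d : ℝ, r * Real.exp ((i + d) / α) = r * Real.exp (i / α) * Real.exp (d / α) := by
    intro i d
    rw [mul_assoc, ← Real.exp_add, add_div]
  have hrad1 : r * Real.exp ((R + 3) / α) = r * Real.exp ((R + 1) / α) * Real.exp (2 / α) := by
    rw [← hrad]; congr 3; ring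
  have hrad2 : r * Real.exp ((R + 4) / α) = r * Real.exp ((R + 3) / α) * Real.exp (1 / α) := by
    rw [← hrad]; congr 3; ring
  have hm₁Q := hmono (R + 3) (R + 4) (by linarith) (by linarith) (by linarith)
  have h7 : 7 * Real.exp (Ψ (R + 1)) ≤ Real.exp (Ψ (R + 3)) := by
    have h2 := (hwin (R + 1) (R + 3) (by linarith) (by linarith) (by linarith)).1
    have h3 : (7 : ℝ) ≤ Real.exp 2 := by
      have h4 : Real.exp 2 = Real.exp 1 * Real.exp 1 := by rw [← Real.exp_add]; norm_num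
      have h5 : (2.7 : ℝ) ≤ Real.exp 1 := by linarith [Real.exp_one_gt_d9]
      calc (7 : ℝ) ≤ 2.7 * 2.7 := by norm_num
        _ ≤ _ := by rw [h4]; gcongr
    calc 7 * Real.exp (Ψ (R + 1)) ≤ Real.exp 2 * Real.exp (Ψ (R + 1)) := by gcongr
      _ ≤ _ := by rw [← Real.exp_add, Real.exp_le_exp]; linarith
  obtain ⟨w, hw, hw'⟩ := turn_window hg hα hle hat hR hRe hwin (j := R + 3) (by linarith)
    (by linarith) (σ := 1) norm_one
  rw [one_mul] at hw'
  have hnf0 := hnf (R + 1)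
  have hnf2 := hnf (R + 4)
  have hmono1 : ∀ v, R + 1 ≤ v → v ≤ R + 3 → Real.exp (Ψ v) ≤ Real.exp (Ψ (R + 3)) :=
    fun v h1 h2 => hmono _ _ (by linarith) h2 (by linarith)
  clear hmono hnf hrad hwin hle hat
  set m₀ : ℝ := Real.exp (Ψ (R + 1)) with hm₀
  set m₁ : ℝ := Real.exp (Ψ (R + 3)) with hm₁
  set Q : ℝ := Real.exp (Ψ (R + 4)) with hQ
  have hem₀ : 0 ≤ e * m₀ := by positivity
  have hem₁ : 0 ≤ e * m₁ := by positivity
  have hem₀' : e * m₀ ≤ 1 / 14 * m₀ := by gcongr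
  have hem₁' : e * m₁ ≤ 1 / 14 * m₁ := by gcongr
  have heP : e * P ≤ e * m₀ := by gcongr
  have hK0 : 0 < K := by rw [hK]; positivity
  obtain ⟨N, hNK, hN1, htail⟩ := last_index h h0 (ρ := r * Real.exp ((R + 3) / α)) (d := 1 / α)
    (Q := Q) (l := (1 - 6 * e) * m₁) (K := K) (by positivity) (by positivity) (by linarith)
    (by positivity) (by linarith) hK
    (fun z hz => hnf2 z (le_of_eq ((mem_sphere_zero_iff_norm.1 hz).trans hrad2.symm)))
  have htail' : ∀ z : ℂ, ‖z‖ ≤ r * Real.exp ((R + 3) / α) →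
      ‖Complex.exp (g z) - ∑ k ∈ Finset.range (N + 1), a k * z ^ k‖ ≤
        Real.exp (-(1 - 7 * e) * m₁) := by
    intro z hz
    refine (htail z hz).trans (le_trans ?_ (small_aux hK2 he0.le hΛ (by linarith)))
    exact mul_le_mul_of_nonneg_right (by linarith) (Real.exp_pos _).le
  have haN : a N ≠ 0 := by
    intro h1
    rw [h1, norm_zero, zero_mul] at hN1
    exact absurd hN1 (not_le.2 (Real.exp_pos _))
  have hcN := (poly_bounds a N h0 haN (ρ := r * Real.exp ((R + 3) / α)) (by positivity)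
    (fun z hz => H N z hz (htail' z hz))).1
  have hNe : (N : ℝ) * (2 / α) = 2 * (N / α) := by ring
  have hNlow : m₀ ≤ N / α := by
    have hN0 : (0 : ℝ) ≤ N / α := by positivity
    have h5 := section_bound h (ρ := r * Real.exp ((R + 1) / α)) (d := 2 / α) (m := m₀)
      (by positivity) (by positivity) (fun z hz => hnf0 z (mem_sphere_zero_iff_norm.1 hz).le) N
      (hw.trans hrad1)
    rw [hNe] at h5
    have h6 : Real.exp (-(1 - 7 * e) * m₁) ≤ Real.exp (m₀ + 2 * (N / α)) := by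
      rw [Real.exp_le_exp]
      linarith
    have h8 : ‖Complex.exp (g w)‖ ≤ Real.exp Λ * Real.exp (m₀ + 2 * (N / α)) := by
      have h9 := norm_le_norm_sub_add (Complex.exp (g w)) (∑ k ∈ Finset.range (N + 1), a k * w ^ k)
      have h10 := htail' w hw.le
      calc ‖Complex.exp (g w)‖ ≤ (N + 2) * Real.exp (m₀ + 2 * (N / α)) := by linarith
        _ ≤ _ := mul_le_mul_of_nonneg_right (by linarith) (Real.exp_pos _).le
    rw [Complex.norm_exp, ← Real.exp_add, Real.exp_le_exp] at h8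
    linarith
  have hNpos : (0 : ℝ) < N := by
    by_contra hn
    have : (N : ℝ) / α ≤ 0 := div_nonpos_of_nonpos_of_nonneg (not_lt.1 hn) hα.le
    linarith
  obtain ⟨n, rfl⟩ : ∃ n, N = n + 1 := ⟨N - 1, by
    have : 0 < N := by exact_mod_cast hNpos
    omega⟩
  obtain ⟨v, ⟨hv1, hv2⟩, hv⟩ : ∃ v ∈ Icc (R + 1) (R + 3),
      ‖a (n + 1)‖ * (r * Real.exp (v / α)) ^ (n + 1) *
        Real.exp ((1 - 6 * e) * Real.exp (Ψ v) + 1) = 1 := by
    refine intermediate_value_Icc (f := fun v => ‖a (n + 1)‖ * (r * Real.exp (v / α)) ^ (n + 1) *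
      Real.exp ((1 - 6 * e) * Real.exp (Ψ v) + 1)) (by linarith) (by fun_prop) ⟨?_, ?_⟩
    · refine le_trans ?_ hcN
      rw [hrad1, mul_pow _ (Real.exp (2 / α)), ← mul_assoc, ← Real.exp_nat_mul, hNe]
      refine mul_le_mul_of_nonneg_left (Real.exp_le_exp.2 ?_) (by positivity)
      linarith
    · calc (1 : ℝ) = Real.exp (-((1 - 6 * e) * m₁) - 1) * Real.exp ((1 - 6 * e) * m₁ + 1) := by
            rw [← Real.exp_add]; simp
        _ ≤ _ := mul_le_mul_of_nonneg_right hN1 (Real.exp_pos _).le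
  have hv' : ‖a (n + 1)‖ * (r * Real.exp (v / α)) ^ (n + 1) =
      Real.exp (-((1 - 6 * e) * Real.exp (Ψ v)) - 1) := by
    rw [eq_div_of_mul_eq (Real.exp_pos _).ne' hv, one_div, ← Real.exp_neg]
    congr 1
    ring
  refine ⟨n, v, hv1, hv2, by linarith, hv', fun z hz => ?_⟩
  have h1 := htail z (hz.trans (by gcongr))
  have h2 : Complex.exp (g z) - ∑ k ∈ Finset.range (n + 1), a k * z ^ k =
      (Complex.exp (g z) - ∑ k ∈ Finset.range (n + 1 + 1), a k * z ^ k)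
        + a (n + 1) * z ^ (n + 1) := by
    rw [Finset.sum_range_succ _ (n + 1)]; ring
  have h3 : ‖a (n + 1) * z ^ (n + 1)‖ ≤ Real.exp (-((1 - 6 * e) * Real.exp (Ψ v))) := by
    rw [norm_mul, norm_pow]
    calc ‖a (n + 1)‖ * ‖z‖ ^ (n + 1) ≤ ‖a (n + 1)‖ * (r * Real.exp (v / α)) ^ (n + 1) := by gcongr
      _ ≤ _ := by rw [hv', Real.exp_le_exp]; linarith
  have h4 : (1 + K) * Real.exp (-((1 - 6 * e) * m₁)) ≤
      (1 + K) * Real.exp (-((1 - 6 * e) * Real.exp (Ψ v))) := by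
    refine mul_le_mul_of_nonneg_left (Real.exp_le_exp.2 (neg_le_neg ?_)) (by linarith)
    exact mul_le_mul_of_nonneg_left (hmono1 v hv1 hv2) he6
  rw [h2]
  refine (norm_add_le _ _).trans ?_
  linarith

/-- The main estimate, with the radius `r * exp (j / α)` and the maximum modulus `exp (Ψ j)`. -/
theorem no_window {a : ℕ → ℂ} {g : ℂ → ℂ} (hg : Differentiable ℂ g)
    (h : ∀ z : ℂ, HasSum (fun k : ℕ => a k * z ^ k) (Complex.exp (g z))) (h0 : a 0 = 1)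
    {Ψ : ℝ → ℝ} (hΨc : Continuous Ψ) {r α e R p : ℝ} (hr : 0 < r) (hα : 0 < α)
    (hle : ∀ j z, ‖z‖ ≤ r * Real.exp (j / α) → ‖g z‖ ≤ Real.exp (Ψ j))
    (hat : ∀ j, ∃ z, ‖z‖ = r * Real.exp (j / α) ∧ ‖g z‖ = Real.exp (Ψ j))
    (he0 : 0 < e) (he : e ≤ 1 / 14) (hR : 26 ≤ R) (hRe : 13 / R ≤ e)
    (hp : p ^ 2 = Real.exp (Ψ 0)) (hαp : α ≤ p) (hp1 : 1 ≤ p)
    (hwin : ∀ i j, 0 ≤ i → i ≤ j → j ≤ 2 * R + 4 →
      j - i ≤ Ψ j - Ψ i ∧ Ψ j - Ψ i ≤ (1 + 1 / R) * (j - i))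
    (hΛ : 4 * (1 + 2 * Real.log (16 * Real.exp (2 * (2 * R + 4)) * p ^ 3)) < e ^ 2 * p)
    (H : ∀ j, 0 ≤ j → ∀ (n : ℕ) (z : ℂ), ‖z‖ ≤ r * Real.exp (j / α) →
      p ^ 2 ≤ Real.exp (Ψ j) →
      ‖Complex.exp (g z) - ∑ k ∈ Finset.range (n + 1), a k * z ^ k‖ ≤
        Real.exp (-(1 - 7 * e) * Real.exp (Ψ j)) →
      ∑ k ∈ Finset.range (n + 1), a k * z ^ k ≠ 0) : False := by
  have hR0 : 0 < R := by linarith
  have hR1 : 1 + 1 / R ≤ 2 := by
    have : 1 / R ≤ 1 := by rw [div_le_one hR0]; linarith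
    linarith
  have hwin2 : ∀ i j, 0 ≤ i → i ≤ j → j ≤ 2 * R + 4 → Ψ j - Ψ i ≤ 2 * (j - i) :=
    fun i j hi hij hj => (hwin i j hi hij hj).2.trans
      (mul_le_mul_of_nonneg_right hR1 (by linarith))
  set C : ℝ := Real.exp (2 * (2 * R + 4)) with hC
  have hC1 : 1 ≤ C := Real.one_le_exp (by positivity)
  have hlo : ∀ j, 0 ≤ j → j ≤ 2 * R + 4 → p ^ 2 ≤ Real.exp (Ψ j) := by
    intro j hj hj'
    rw [hp, Real.exp_le_exp]
    linarith [(hwin 0 j le_rfl hj hj').1]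
  have hhi : ∀ j, 0 ≤ j → j ≤ 2 * R + 4 → Real.exp (Ψ j) ≤ C * p ^ 2 := by
    intro j hj hj'
    rw [hp, hC, ← Real.exp_add, Real.exp_le_exp]
    linarith [hwin2 0 j le_rfl hj hj']
  have hp0 : 0 < p := by linarith
  have hp2 : p ≤ p ^ 2 := le_self_pow₀ hp1 two_ne_zero
  have hp3 : C * p ^ 2 ≤ C * p ^ 3 :=
    mul_le_mul_of_nonneg_left (pow_le_pow_right₀ hp1 (by norm_num)) (by linarith)
  have hp4 : 1 ≤ C * p ^ 2 := one_le_mul_of_one_le_of_one_le hC1 (by linarith)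
  set Λ : ℝ := Real.log (16 * C * p ^ 3) with hΛdef
  have hΛ0 : 0 ≤ Λ := Real.log_nonneg (by linarith)
  have hΛexp : Real.exp Λ = 16 * (C * p ^ 3) := by
    rw [hΛdef, Real.exp_log (by positivity), mul_assoc]
  have hΛe : Λ ≤ e * p ^ 2 := by
    have h1 : e ^ 2 ≤ e := by rw [sq]; exact mul_le_of_le_one_right he0.le (by linarith)
    have h2 : e ^ 2 * p ≤ e * p ^ 2 := by gcongr
    linarith
  obtain ⟨K, hK⟩ : ∃ K, K = 4 * Real.exp (Ψ (R + 4)) / (1 / α) := ⟨_, rfl⟩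
  have hK0 : 0 < K := by rw [hK]; positivity
  have hK2 : K + 2 ≤ Real.exp Λ := by
    rw [hΛexp, hK, div_div_eq_mul_div, div_one]
    have h1 : Real.exp (Ψ (R + 4)) * α ≤ C * p ^ 2 * p :=
      mul_le_mul (hhi _ (by linarith) (by linarith)) hαp hα.le (by linarith)
    linarith
  obtain ⟨n, v, hv1, hv2, hNlow, hv, hT⟩ := index_radius hg h h0 hΨc hr hα hle hat he0 he hR hRe
    (P := p ^ 2) (by linarith) hwin (hlo _ (by linarith) (by linarith)) hK hK2 hΛe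
    (fun n z hz => H (R + 3) (by linarith) n z hz (hlo _ (by linarith) (by linarith)))
  obtain ⟨w, hw, hw'⟩ := turn_window hg hα hle hat hR hRe hwin (j := v - 2 * e) (by linarith)
    (by linarith) (σ := -1) (by simp)
  have hMp : p ^ 2 ≤ Real.exp (Ψ v) := hlo _ (by linarith) (by linarith)
  have hMC : Real.exp (Ψ v) ≤ C * p ^ 2 := hhi _ (by linarith) (by linarith)
  have h1 : (1 - 4 * e) * Real.exp (Ψ v) ≤ Real.exp (Ψ (v - 2 * e)) := by
    have h2 := hwin2 (v - 2 * e) v (by linarith) (by linarith) (by linarith)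
    calc (1 - 4 * e) * Real.exp (Ψ v) ≤ Real.exp (-(4 * e)) * Real.exp (Ψ v) :=
          mul_le_mul_of_nonneg_right (by linarith [Real.add_one_le_exp (-(4 * e))])
            (Real.exp_pos _).le
      _ ≤ _ := by
          rw [← Real.exp_add, Real.exp_le_exp]
          linarith
  have hS := fun z hz => H v (by linarith) n z hz hMp
    ((hT z hz).trans (small_aux hK2 he0.le hΛe hMp))
  have hlev := hle v
  clear hle hat hwin hwin2 hlo hhi H hK hΛdef hC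
  obtain ⟨M, hM⟩ : ∃ M, M = Real.exp (Ψ v) := ⟨_, rfl⟩
  rw [← hM] at hv hT hMp hMC h1 hlev
  have hNpos : (0 : ℝ) < (n + 1 : ℕ) := by positivity
  have heM : e * p ^ 2 ≤ e * M := by gcongr
  have heM' : e * M ≤ 1 / 14 * M := mul_le_mul_of_nonneg_right he (by linarith)
  have heM0 : 0 ≤ e * p ^ 2 := by positivity
  set s : ℝ := r * Real.exp (v / α) with hs
  have hs0 : 0 < s := by positivity
  set l : ℝ := Real.log (8 * (M + 1)) with hl
  have hl0 : 0 < l := Real.log_pos (by linarith)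
  have hlΛ : l ≤ Λ := (Real.log_le_iff_le_exp (by linarith)).2 (by rw [hΛexp]; linarith)
  have hk0 : 0 ≤ Real.log (K + 2) := Real.log_nonneg (by linarith)
  have hkΛ : Real.log (K + 2) ≤ Λ := (Real.log_le_iff_le_exp (by linarith)).2 hK2
  set s' : ℝ := s * Real.exp (-(l / (n + 1 : ℕ))) with hs'
  have hs'0 : 0 < s' := by positivity
  have hss : s' < s := mul_lt_of_lt_one_right hs0 (by
    rw [Real.exp_lt_one_iff, neg_lt_zero]; positivity)
  have hwle : ‖w‖ ≤ s' * Real.exp (-(e / α)) := by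
    rw [hw, hs', hs, mul_assoc, mul_assoc, ← Real.exp_add, ← Real.exp_add]
    refine mul_le_mul_of_nonneg_left (Real.exp_le_exp.2 ?_) hr.le
    have h1 : l / (n + 1 : ℕ) ≤ e / α := by
      rw [div_le_div_iff₀ hNpos hα]
      have h2 := (le_div_iff₀ hα).1 hNlow
      calc l * α ≤ e * p ^ 2 * α := mul_le_mul_of_nonneg_right (by linarith) hα.le
        _ = e * (p ^ 2 * α) := by ring
        _ ≤ _ := by gcongr
    have h3 : (v - 2 * e) / α = v / α - 2 * (e / α) := by ring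
    linarith
  obtain ⟨k1, k2⟩ := kernel_bound hs'0 (δ := e / α) (by positivity) (norm_nonneg w) hwle
  have hmain := lower_bound hg h (n := n) (s := s) (s' := s') (M := M)
    (c := Real.log (K + 2) - (1 - 6 * e) * M) (D := Real.log (K + 2) + 1) hs'0 hss (by linarith)
    hlev (by linarith) (by linarith) (by
      intro z hz
      rw [sub_eq_add_neg (Real.log _), Real.exp_add, Real.exp_log (by linarith)]
      exact hT z hz) hS (by
      rw [hs', mul_div_cancel_left₀ _ hs0.ne', ← Real.exp_nat_mul, mul_neg,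
        mul_div_cancel₀ _ hNpos.ne', Real.exp_neg, hl, Real.exp_log (by linarith), one_div])
    (by rw [hv]; apply le_of_eq; congr 1; ring) k1
  have h3 : (1 - 5 * e) * M ≤ -(g w).re := by
    have h4 : ((-1 : ℂ) * g w).re = -(g w).re := by simp
    rw [h4] at hw'
    have h5 : (1 - e) * ((1 - 4 * e) * M) ≤ (1 - e) * Real.exp (Ψ (v - 2 * e)) :=
      mul_le_mul_of_nonneg_left h1 (by linarith)
    have h6 : 0 ≤ e * (e * M) := mul_nonneg he0.le (by linarith)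
    linarith
  have h7 : 2 + 2 / (e / α) ≤ 4 * p / e := by
    rw [div_div_eq_mul_div, le_div_iff₀ he0, add_mul, div_mul_cancel₀ _ he0.ne']
    linarith
  have h8 : e * p ^ 2 ≤ 4 * p / e * (1 + 2 * Λ) := by
    calc e * p ^ 2 ≤ Real.log (K + 2) - (1 - 6 * e) * M - (g w).re := by linarith
      _ ≤ _ := hmain
      _ ≤ 4 * p / e * (1 + 2 * Λ) :=
        mul_le_mul (k2.trans h7) (by linarith) (by linarith) (by positivity)
  rw [div_mul_eq_mul_div, le_div_iff₀ he0] at h8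
  have h9 := mul_lt_mul_of_pos_left hΛ hp0
  linarith

end Pool.Agent.Lib.MP_5d54af_an.Sharp
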