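import Pool.Agent.Lib.MP_5d54af_an.Sharp.Win
import Pool.Agent.Lib.MP_5d54af_an.Sharp.Contra

set_option autoImplicit false

open Metric Filter Topology Set

namespace Pool.Agent.Lib.MP_5d54af_an.Sharp

theorem large_scale {C e : ℝ} (hC : 0 < C) (he : 0 < e) :
    ∃ p₀ : ℝ, ∀ p, p₀ ≤ p → 4 * (1 + 2 * Real.log (16 * C * p ^ 3)) < e ^ 2 * p := by
  have h1 := Real.isLittleO_log_id_atTop.bound (c := e ^ 2 / 48) (by positivity)
  have h2 := eventually_gt_atTop ((4 + 8 * Real.log (16 * C)) / (e ^ 2 / 2))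
  obtain ⟨p₀, hp₀⟩ := eventually_atTop.1 (h1.and (h2.and (eventually_gt_atTop 0)))
  refine ⟨p₀, fun p hp => ?_⟩
  obtain ⟨k1, k2, k3⟩ := hp₀ p hp
  rw [div_lt_iff₀ (by positivity)] at k2
  rw [Real.norm_eq_abs, id, Real.norm_eq_abs, abs_of_pos k3] at k1
  rw [Real.log_mul (by positivity) (by positivity), Real.log_pow]
  have := le_abs_self (Real.log p)
  push_cast
  linarith

theorem sharp_exp {a : ℕ → ℂ} {g : ℂ → ℂ} (hg : Differentiable ℂ g)
    (h : ∀ z : ℂ, HasSum (fun k : ℕ => a k * z ^ k) (Complex.exp (g z))) (h0 : a 0 = 1)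
    (hnc : ∃ z w, g z ≠ g w) {θ : ℝ} (hθ : θ < 1) (L : ℝ) :
    ∃ (n : ℕ) (z₀ : ℂ), ∑ k ∈ Finset.range (n + 1), a k * z₀ ^ k = 0 ∧ (g z₀).re ≤ -L ∧
      ∀ w : ℂ, ‖w‖ ≤ ‖z₀‖ → (g z₀).re ≤ -θ * ‖g w‖ := by
  by_contra hcon
  set e : ℝ := min (1 / 14) ((1 - θ) / 7) with hedef
  have he0 : 0 < e := lt_min (by norm_num) (by linarith)
  have he : e ≤ 1 / 14 := min_le_left _ _
  have heθ : θ ≤ 1 - 7 * e := by linarith [min_le_right (1 / 14) ((1 - θ) / 7)]
  set R : ℝ := 13 / e + 26 with hRdef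
  have he13 : 0 < 13 / e := by positivity
  have hR : 26 ≤ R := by linarith
  have hR0 : 0 < R := by linarith
  have hRe : 13 / R ≤ e := by
    rw [div_le_iff₀ hR0, hRdef, mul_add, mul_div_cancel₀ _ he0.ne']
    linarith
  obtain ⟨p₀, hp₀⟩ := large_scale (C := Real.exp (2 * (2 * R + 4))) (Real.exp_pos _) he0
  obtain ⟨Φ, hconv, hle, hat, x₀, y₀, hxy, hΦ⟩ := exists_max hg hnc
  have hΦc : Continuous Φ := continuousOn_univ.1 (hconv.continuousOn isOpen_univ)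
  have hR1 : 1 / R ≤ 1 := by rw [div_le_one hR0]; linarith
  have hR2 : 0 < 1 / R := by positivity
  obtain ⟨t, α, hα, hJ, hαp, hwin⟩ := window hconv hxy hΦ (q := 1 + 1 / R) (L := 2 * R + 4)
    (by linarith) (by linarith) (by linarith) (2 * (|p₀| + 2 * |L|))
  set p : ℝ := Real.exp (Φ t / 2) with hp
  have hpl : |p₀| + 2 * |L| + 1 ≤ p := by
    have := Real.add_one_le_exp (Φ t / 2)
    linarith
  have hp1 : 1 ≤ p := by linarith [abs_nonneg p₀, abs_nonneg L]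
  refine no_window hg h h0 (Ψ := fun j => Φ (t + j / α)) (by fun_prop) (r := Real.exp t)
    (Real.exp_pos _) hα (fun j z hz => hle _ z (by rwa [Real.exp_add]))
    (fun j => by simpa only [Real.exp_add] using hat (t + j / α)) he0 he hR hRe (p := p) ?_ hαp hp1
    ?_ (hp₀ p (by linarith [le_abs_self p₀, abs_nonneg L])) ?_
  · rw [hp, ← Real.exp_nat_mul]
    congr 1
    simp only [zero_div, add_zero]
    push_cast
    ring
  · intro i j hi hij hj
    have h1 := hwin (t + i / α) (t + j / α) (le_add_of_nonneg_right (by positivity))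
      (by gcongr) (by gcongr)
    have h2 : α * (t + j / α - (t + i / α)) = j - i := by field_simp; ring
    rwa [mul_assoc, h2] at h1
  · intro j _ n z hz hm hT hS
    rw [hS, sub_zero, Complex.norm_exp, Real.exp_le_exp] at hT
    refine hcon ⟨n, z, hS, hT.trans ?_, fun w hw => hT.trans ?_⟩
    · have h1 : p ≤ p ^ 2 := le_self_pow₀ hp1 two_ne_zero
      have h2 : e * Real.exp (Φ (t + j / α)) ≤ 1 / 14 * Real.exp (Φ (t + j / α)) := by gcongr
      linarith [le_abs_self L, abs_nonneg p₀]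
    · have h1 := hle (t + j / α) w (by rw [Real.exp_add]; exact hw.trans hz)
      have h2 : θ * ‖g w‖ ≤ (1 - 7 * e) * Real.exp (Φ (t + j / α)) :=
        mul_le_mul heθ h1 (norm_nonneg _) (by linarith)
      linarith

theorem exists_log_entire {q : ℂ → ℂ} (hq : Differentiable ℂ q) (hne : ∀ z, q z ≠ 0)
    (h0 : q 0 = 1) : ∃ k : ℂ → ℂ, Differentiable ℂ k ∧ ∀ z, Complex.exp (k z) = q z := by
  have hd : Differentiable ℂ (fun z => deriv q z / q z) := hq.deriv.div hq hne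
  obtain ⟨k, hk0, hk⟩ := hd.isExactOn_univ.with_val_at 0 0
  refine ⟨k, fun z => (hk z (mem_univ z)).differentiableAt, fun z => ?_⟩
  have hF : ∀ z, HasDerivAt (fun z => q z * Complex.exp (-k z)) 0 z := by
    intro z
    have h3 := (hq z).hasDerivAt.mul (hk z (mem_univ z)).neg.cexp
    have h4 : deriv q z * Complex.exp (-k z) + q z * (Complex.exp (-k z) * -(deriv q z / q z))
        = 0 := by
      have := hne z
      field_simp
      ring
    rw [← h4]
    exact h3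
  have h4 : q z * Complex.exp (-k z) = q 0 * Complex.exp (-k 0) :=
    is_const_of_deriv_eq_zero (f := fun z => q z * Complex.exp (-k z))
      (fun z => (hF z).differentiableAt) (fun z => (hF z).deriv) z 0
  rw [h0, hk0, neg_zero, Complex.exp_zero, one_mul, Complex.exp_neg,
    mul_inv_eq_one₀ (Complex.exp_ne_zero _)] at h4
  exact h4.symm

theorem sharp (a : ℕ → ℂ) (f : ℂ → ℂ)
    (h : ∀ z : ℂ, HasSum (fun k : ℕ => a k * z ^ k) (f z)) (hne : ∀ z : ℂ, f z ≠ 0)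
    (hnc : ∃ z w : ℂ, f z ≠ f w) {θ : ℝ} (hθ : θ < 1) {ε : ℝ} (hε : 0 < ε) :
    ∃ (n : ℕ) (z₀ : ℂ), ∑ k ∈ Finset.range (n + 1), a k * z₀ ^ k = 0 ∧ ‖f z₀‖ < ε ∧
      ∀ w : ℂ, ‖w‖ ≤ ‖z₀‖ → Real.log ‖f z₀‖ ≤ -θ * |Real.log ‖f w‖| := by
  have hf0 : f 0 = a 0 := by
    have h2 : HasSum (fun k : ℕ => a k * (0 : ℂ) ^ k) (a 0 * (0 : ℂ) ^ 0) :=
      hasSum_single 0 (fun k hk => by simp [hk])
    rw [(h 0).unique h2]; simp
  have ha0 : a 0 ≠ 0 := hf0 ▸ hne 0
  have hbq : ∀ z : ℂ, HasSum (fun k : ℕ => (a 0)⁻¹ * a k * z ^ k) ((a 0)⁻¹ * f z) := by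
    intro z
    simpa [mul_assoc] using (h z).mul_left (a 0)⁻¹
  obtain ⟨g, hg, hgq⟩ := exists_log_entire (diff_of_hasSum hbq)
    (fun z => mul_ne_zero (inv_ne_zero ha0) (hne z)) (by rw [hf0, inv_mul_cancel₀ ha0])
  have hfg : ∀ z, f z = a 0 * Complex.exp (g z) := fun z => by
    rw [hgq, mul_inv_cancel_left₀ ha0]
  set c : ℝ := Real.log ‖a 0‖ with hc
  have hlog : ∀ z, Real.log ‖f z‖ = c + (g z).re := fun z => by
    rw [hfg, norm_mul, Complex.norm_exp,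
      Real.log_mul (norm_ne_zero_iff.2 ha0) (Real.exp_pos _).ne', Real.log_exp]
  set σ : ℝ := (1 + max θ 0) / 2 with hσ
  have hm0 : 0 ≤ max θ 0 := le_max_right _ _
  have hm1 : max θ 0 < 1 := max_lt hθ one_pos
  have hσ0 : 0 ≤ σ := by linarith
  have hσ1 : 0 < 1 - σ := by linarith
  have hσ2 : max θ 0 ≤ σ * σ := by rw [hσ]; nlinarith [sq_nonneg (1 - max θ 0)]
  obtain ⟨n, z₀, h1, h2, h3⟩ := sharp_exp (a := fun k => (a 0)⁻¹ * a k) hg
    (fun z => by rw [hgq]; exact hbq z) (inv_mul_cancel₀ ha0) (by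
      obtain ⟨z, w, hzw⟩ := hnc
      exact ⟨z, w, fun h1 => hzw (by rw [hfg, hfg, h1])⟩) (θ := σ) (by linarith)
    (2 * |c| / (1 - σ) + |c - Real.log ε| + 1)
  have h4 : 0 ≤ 2 * |c| / (1 - σ) := by positivity
  refine ⟨n, z₀, ?_, ?_, fun w hw => ?_⟩
  · simp only [mul_assoc, ← Finset.mul_sum] at h1
    exact (mul_eq_zero.1 h1).resolve_left (inv_ne_zero ha0)
  · rw [← Real.log_lt_log_iff (norm_pos_iff.2 (hne z₀)) hε, hlog]
    linarith [le_abs_self (c - Real.log ε)]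
  · have h5 : (g z₀).re ≤ -(2 * |c| / (1 - σ)) := by linarith [abs_nonneg (c - Real.log ε)]
    have h6 : (1 - σ) * (g z₀).re ≤ -(2 * |c|) := by
      refine (mul_le_mul_of_nonneg_left h5 hσ1.le).trans (le_of_eq ?_)
      field_simp
    have h7 := mul_le_mul_of_nonneg_left (h3 w hw) hσ0
    have h8 : |Real.log ‖f w‖| ≤ |c| + ‖g w‖ := by
      rw [hlog]
      exact (abs_add_le _ _).trans (by gcongr; exact Complex.abs_re_le_norm _)
    have h9 : θ * |Real.log ‖f w‖| ≤ max θ 0 * (|c| + ‖g w‖) :=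
      mul_le_mul (le_max_left _ _) h8 (abs_nonneg _) hm0
    have h10 : max θ 0 * ‖g w‖ ≤ σ * σ * ‖g w‖ := by gcongr
    have h11 : max θ 0 * |c| ≤ 1 * |c| := by gcongr
    rw [hlog]
    linarith [le_abs_self c]

end Pool.Agent.Lib.MP_5d54af_an.Sharp
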