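import Pool.Agent.Lib.MP_5d54af_an.Main

set_option autoImplicit false

open Metric Filter Topology Set

namespace Pool.Agent.Lib.MP_5d54af_an.Sharp

/-- Near a point of maximum modulus in a regular window the function turns around the origin. -/
theorem turn {g : ℂ → ℂ} (hg : Differentiable ℂ g) {z : ℂ} (hz : g z ≠ 0) {a R : ℝ} (ha : 0 < a)
    (hR : 13 ≤ R)
    (hb : ∀ u : ℂ, |u.re| ≤ R / a → ‖g (z * Complex.exp u)‖ ≤ ‖g z‖ * Real.exp (a * u.re + 1))
    {σ : ℂ} (hσ : ‖σ‖ = 1) :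
    ∃ w : ℂ, ‖w‖ = ‖z‖ ∧ (1 - 13 / R) * ‖g z‖ ≤ (σ * g w).re := by
  set G : ℂ → ℂ := fun u => g (z * Complex.exp u) * Complex.exp (-(a * u)) / g z with hG
  have hG0 : G 0 = 1 := by simp [hG, hz]
  have hGd : Differentiable ℂ G := by
    simp only [hG]
    fun_prop
  have hgz : 0 < ‖g z‖ := norm_pos_iff.2 hz
  have hR0 : 0 < R := by linarith
  have hmaps : MapsTo G (ball 0 (R / a)) (closedBall (G 0) 4) := by
    intro u hu
    rw [mem_ball_zero_iff] at hu
    have h1 := hb u ((Complex.abs_re_le_norm u).trans hu.le)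
    have h2 : ‖G u‖ ≤ Real.exp 1 := by
      simp only [hG, norm_div, norm_mul, Complex.norm_exp]
      rw [div_le_iff₀ hgz]
      have h3 : (-((a : ℂ) * u)).re = -(a * u.re) := by simp
      rw [h3]
      calc _ ≤ ‖g z‖ * Real.exp (a * u.re + 1) * Real.exp (-(a * u.re)) := by gcongr
        _ = _ := by rw [mul_assoc, ← Real.exp_add, mul_comm]; congr 2; ring
    rw [hG0, mem_closedBall, dist_eq_norm]
    have h4 := norm_sub_le (G u) 1
    rw [norm_one] at h4
    linarith [Real.exp_one_lt_d9]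
  set φ : ℝ := -Complex.arg (σ * g z) with hφ
  have hφπ : |φ| ≤ Real.pi := by rw [hφ, abs_neg]; exact Complex.abs_arg_le_pi _
  set u : ℂ := (φ / a : ℝ) * Complex.I with hu
  have hun : ‖u‖ ≤ Real.pi / a := by
    rw [hu, norm_mul, Complex.norm_I, mul_one, Complex.norm_real, Real.norm_eq_abs, abs_div,
      abs_of_pos ha]
    gcongr
  have hπ : Real.pi < 13 / 4 := by linarith [Real.pi_lt_d2]
  have hub : u ∈ ball (0 : ℂ) (R / a) := by
    rw [mem_ball_zero_iff]
    refine hun.trans_lt ?_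
    gcongr
    linarith
  have hS := Complex.dist_le_div_mul_dist_of_mapsTo_ball hGd.differentiableOn hmaps hub
  rw [hG0, dist_zero_right, dist_eq_norm] at hS
  have hS' : ‖G u - 1‖ ≤ 13 / R := by
    refine hS.trans ?_
    calc 4 / (R / a) * ‖u‖ ≤ 4 / (R / a) * (13 / 4 / a) := by
          gcongr
          exact hun.trans (by gcongr)
      _ = 13 / R := by field_simp
  refine ⟨z * Complex.exp u, ?_, ?_⟩
  · rw [norm_mul, Complex.norm_exp, hu]; simp
  · have h1 : (a : ℂ) * u = φ * Complex.I := by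
      rw [hu]; push_cast
      have : (a : ℂ) ≠ 0 := by exact_mod_cast ha.ne'
      field_simp
    have h2 : σ * g z * Complex.exp (φ * Complex.I) = (‖g z‖ : ℝ) := by
      have h3 := Complex.norm_mul_exp_arg_mul_I (σ * g z)
      rw [norm_mul, hσ, one_mul] at h3
      rw [← h3, mul_assoc, ← Complex.exp_add, hφ]
      push_cast
      simp
    have h4 : σ * g (z * Complex.exp u) = (‖g z‖ : ℝ) * G u := by
      rw [← h2]
      simp only [hG, h1, Complex.exp_neg]
      have := Complex.exp_ne_zero (φ * Complex.I)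
      field_simp
    rw [h4, Complex.re_ofReal_mul, mul_comm]
    gcongr
    have h5 := (abs_le.1 ((Complex.abs_re_le_norm (G u - 1)).trans hS')).1
    simp only [Complex.sub_re, Complex.one_re] at h5
    linarith

/-- Choice of the last large term. -/
theorem last_index {a : ℕ → ℂ} {f : ℂ → ℂ}
    (h : ∀ z : ℂ, HasSum (fun k : ℕ => a k * z ^ k) (f z)) (h0 : a 0 = 1) {ρ d Q l K : ℝ}
    (hρ : 0 < ρ) (hd : 0 < d) (hQ : 1 ≤ Q) (hl0 : 0 ≤ l) (hl : l ≤ Q) (hK : K = 4 * Q / d)
    (hC : ∀ z ∈ sphere (0 : ℂ) (ρ * Real.exp d), ‖f z‖ ≤ Real.exp Q) :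
    ∃ N : ℕ, (N : ℝ) ≤ K ∧ Real.exp (-l - 1) ≤ ‖a N‖ * ρ ^ N ∧
      ∀ z : ℂ, ‖z‖ ≤ ρ →
        ‖f z - ∑ k ∈ Finset.range (N + 1), a k * z ^ k‖ ≤ (1 + K) * Real.exp (-l) := by
  have hK0 : 0 < K := by rw [hK]; positivity
  have hc : ∀ k : ℕ, ‖a k‖ * ρ ^ k ≤ Real.exp (Q - k * d) := by
    intro k
    have h1 := cauchy h (by positivity) hC k
    rw [mul_pow, ← Real.exp_nat_mul, ← mul_assoc] at h1
    rwa [Real.exp_sub, le_div_iff₀ (Real.exp_pos _)]
  set G : Set ℕ := {k | Real.exp (-l - k / K) ≤ ‖a k‖ * ρ ^ k} with hG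
  have hG0 : 0 ∈ G := by
    simp only [hG, Set.mem_ofPred_eq, h0]
    simp only [Nat.cast_zero, zero_div, sub_zero, norm_one, pow_zero, mul_one]
    rw [Real.exp_le_one_iff]; linarith
  have hGK : ∀ k ∈ G, (k : ℝ) ≤ K := by
    intro k hk
    have h1 := Real.exp_le_exp.1 (le_trans hk (hc k))
    have hk0 : (0 : ℝ) ≤ k := Nat.cast_nonneg k
    have h2 : (k : ℝ) / K ≤ k * d / 2 := by
      rw [hK, div_div_eq_mul_div]
      gcongr
      linarith
    rw [hK, le_div_iff₀ hd]
    linarith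
  have hbdd : BddAbove G := ⟨⌈K⌉₊, fun k hk => by
    have := (hGK k hk).trans (Nat.le_ceil K)
    exact_mod_cast this⟩
  set N := sSup G with hN
  have hNG : N ∈ G := Nat.sSup_mem ⟨0, hG0⟩ hbdd
  have hNmax : ∀ k, N < k → ‖a k‖ * ρ ^ k ≤ Real.exp (-l - k / K) := by
    intro k hk
    by_contra hcon
    have : k ∈ G := le_of_lt (not_le.1 hcon)
    exact absurd (le_csSup hbdd this) (not_le.2 hk)
  refine ⟨N, hGK N hNG, le_trans ?_ hNG, ?_⟩
  · rw [Real.exp_le_exp]
    have : (N : ℝ) / K ≤ 1 := (div_le_one hK0).2 (hGK N hNG)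
    linarith
  · intro z hz
    set x : ℝ := Real.exp (-1 / K) with hx
    have hx0 : 0 < x := Real.exp_pos _
    have hx1 : x * (1 + K) ≤ K := by
      have h1 := Real.add_one_le_exp (1 / K)
      have h2 : x * Real.exp (1 / K) = 1 := by
        rw [hx, ← Real.exp_add]
        have : -1 / K + 1 / K = 0 := by ring
        rw [this, Real.exp_zero]
      have h3 : x * (1 / K + 1) ≤ 1 :=
        le_trans (mul_le_mul_of_nonneg_left h1 hx0.le) h2.le
      calc x * (1 + K) = x * (1 / K + 1) * K := by field_simp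
        _ ≤ 1 * K := by gcongr
        _ = K := one_mul _
    have hx2 : x < 1 := by
      by_contra hcon
      have : 1 * (1 + K) ≤ x * (1 + K) := by gcongr; exact not_lt.1 hcon
      linarith
    have h1 := (hasSum_nat_add_iff' (N + 1)).2 (h z)
    have h2 := (hasSum_geometric_of_lt_one hx0.le hx2).mul_left (Real.exp (-l))
    have h3 := h1.norm_le_of_bounded h2 (fun k => by
      rw [norm_mul, norm_pow]
      calc ‖a (k + (N + 1))‖ * ‖z‖ ^ (k + (N + 1)) ≤ ‖a (k + (N + 1))‖ * ρ ^ (k + (N + 1)) := by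
            gcongr
        _ ≤ Real.exp (-l - (k + (N + 1) : ℕ) / K) := hNmax _ (by omega)
        _ ≤ Real.exp (-l) * x ^ k := by
            rw [hx, ← Real.exp_nat_mul, ← Real.exp_add, Real.exp_le_exp]
            have : (k : ℝ) / K ≤ (k + (N + 1) : ℕ) / K := by
              gcongr; omega
            have e : (k : ℝ) * (-1 / K) = -(k / K) := by ring
            linarith)
    refine h3.trans ?_
    have h4 : (1 - x)⁻¹ ≤ 1 + K := by
      rw [inv_le_comm₀ (by linarith) (by positivity), inv_eq_one_div, div_le_iff₀ (by positivity)]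
      linarith
    rw [mul_comm]
    gcongr

end Pool.Agent.Lib.MP_5d54af_an.Sharp
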