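import Mathlib

set_option autoImplicit false

open Metric Filter Topology Set

namespace Pool.Agent.Lib.MP_5d54af_an.Sharp

/-- A convex function that is not decreasing has far away windows on which it is almost affine. -/
theorem window {Φ : ℝ → ℝ} (hc : ConvexOn ℝ univ Φ) {x₀ y₀ : ℝ} (hxy : x₀ < y₀)
    (hΦ : Φ x₀ < Φ y₀) {q L : ℝ} (hq : 1 < q) (hq2 : q ≤ 2) (hL : 2 ≤ L) (J : ℝ) :
    ∃ t a : ℝ, 0 < a ∧ J ≤ Φ t ∧ a ≤ Real.exp (Φ t / 2) ∧
      ∀ x y, t ≤ x → x ≤ y → y ≤ t + L / a →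
        a * (y - x) ≤ Φ y - Φ x ∧ Φ y - Φ x ≤ q * a * (y - x) := by
  set A : ℝ → ℝ := fun x => derivWithin Φ (Ioi x) x with hA
  have hi : ∀ x : ℝ, x ∈ interior (univ : Set ℝ) := fun x => by simp
  have hmono : Monotone A := fun x y h => hc.monotoneOn_rightDeriv (hi x) (hi y) h
  have h1 : ∀ x y, x ≤ y → A x * (y - x) ≤ Φ y - Φ x := by
    intro x y h
    rcases h.eq_or_lt with rfl | h
    · simp
    · have := hc.rightDeriv_le_slope_of_mem_interior (hi x) (mem_univ y) h
      rw [slope_def_field, le_div_iff₀ (sub_pos.2 h)] at this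
      exact this
  have h2 : ∀ x y, x ≤ y → Φ y - Φ x ≤ A y * (y - x) := by
    intro x y h
    rcases h.eq_or_lt with rfl | h
    · simp
    · have := (hc.slope_le_leftDeriv_of_mem_interior (mem_univ x) (hi y) h).trans
        (hc.leftDeriv_le_rightDeriv_of_mem_interior (hi y))
      rw [slope_def_field, div_le_iff₀ (sub_pos.2 h)] at this
      exact this
  have hA0 : 0 < A y₀ := by
    have := h2 x₀ y₀ hxy.le
    by_contra hn
    have : A y₀ * (y₀ - x₀) ≤ 0 := mul_nonpos_of_nonpos_of_nonneg (not_lt.1 hn) (by linarith)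
    linarith
  set t₀ : ℝ := y₀ + |J - Φ y₀| / A y₀ with ht₀
  have hy₀ : y₀ ≤ t₀ := le_add_of_nonneg_right (by positivity)
  have hpos : ∀ t, t₀ ≤ t → 0 < A t := fun t ht => hA0.trans_le (hmono (hy₀.trans ht))
  have hJ : ∀ t, t₀ ≤ t → Φ t₀ ≤ Φ t := by
    intro t ht
    have := h1 t₀ t ht
    have h3 : 0 ≤ A t₀ * (t - t₀) := mul_nonneg (hpos t₀ le_rfl).le (by linarith)
    linarith
  have hJ0 : J ≤ Φ t₀ := by
    have := h1 y₀ t₀ hy₀
    have h3 : A y₀ * (t₀ - y₀) = |J - Φ y₀| := by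
      rw [ht₀]; field_simp; ring
    linarith [le_abs_self (J - Φ y₀)]
  by_contra hcon
  have hstep : ∀ t, t₀ ≤ t → q * A t < A (t + L / A t) ∨ Real.exp (Φ t / 2) < A t := by
    intro t ht
    by_contra hn
    push Not at hn
    refine hcon ⟨t, A t, hpos t ht, hJ0.trans (hJ t ht), hn.2, fun x y hx hxy hy => ⟨?_, ?_⟩⟩
    · exact le_trans (mul_le_mul_of_nonneg_right (hmono hx) (by linarith)) (h1 x y hxy)
    · exact (h2 x y hxy).trans
        (mul_le_mul_of_nonneg_right ((hmono hy).trans hn.1) (by linarith))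
  set c : ℝ := min (A t₀) (Real.exp (Φ t₀ / 2) / q) with hcdef
  have hq0 : 0 < q := by linarith
  have hc0 : 0 < c := lt_min (hpos t₀ le_rfl) (by positivity)
  set B : ℝ := L / c * (q / (q - 1)) with hB
  have hq1 : 0 < q - 1 := by linarith
  have hB0 : 0 < B := by positivity
  have key : ∀ k : ℕ, ∃ t, t₀ ≤ t ∧ t ≤ t₀ + B * (1 - (q ^ k)⁻¹) ∧ Φ t₀ + k * L ≤ Φ t ∧
      c * q ^ k ≤ A t := by
    intro k
    induction k with
    | zero => exact ⟨t₀, le_rfl, by simp, by simp, by rw [pow_zero, mul_one]; exact min_le_left _ _⟩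
    | succ k ih =>
      obtain ⟨t, k1, k2, k3, k4⟩ := ih
      have hAt := hpos t k1
      have hqk : 0 < q ^ k := by positivity
      have hle : t ≤ t + L / A t := le_add_of_nonneg_right (by positivity)
      refine ⟨t + L / A t, k1.trans hle, ?_, ?_, ?_⟩
      · have k5 : L / A t ≤ L / (c * q ^ k) := by gcongr
        have k6 : B * (1 - (q ^ (k + 1))⁻¹) = B * (1 - (q ^ k)⁻¹) + L / (c * q ^ k) := by
          rw [hB, pow_succ]; field_simp; ring
        linarith
      · have k5 := h1 t _ hle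
        have k6 : A t * (t + L / A t - t) = L := by field_simp; ring
        push_cast
        linarith
      · rcases hstep t k1 with k5 | k5
        · calc c * q ^ (k + 1) = q * (c * q ^ k) := by ring
            _ ≤ q * A t := by gcongr
            _ ≤ _ := k5.le
        · have k6 : q ^ k ≤ Real.exp (k * L / 2) := by
            have : q ≤ Real.exp (L / 2) := by linarith [Real.add_one_le_exp (L / 2)]
            calc q ^ k ≤ Real.exp (L / 2) ^ k := by gcongr
              _ = _ := by rw [← Real.exp_nat_mul]; congr 1; ring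
          calc c * q ^ (k + 1) ≤ Real.exp (Φ t₀ / 2) / q * q ^ (k + 1) := by
                gcongr; exact min_le_right _ _
            _ = Real.exp (Φ t₀ / 2) * q ^ k := by rw [pow_succ]; field_simp
            _ ≤ Real.exp (Φ t₀ / 2) * Real.exp (k * L / 2) := by gcongr
            _ ≤ Real.exp (Φ t / 2) := by
                rw [← Real.exp_add, Real.exp_le_exp]; linarith
            _ ≤ _ := k5.le.trans (hmono hle)
  obtain ⟨k, hk⟩ := pow_unbounded_of_one_lt (A (t₀ + B) / c) hq
  obtain ⟨t, -, k2, -, k4⟩ := key k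
  have k5 : t ≤ t₀ + B := by
    have : 0 < (q ^ k)⁻¹ := by positivity
    nlinarith
  rw [div_lt_iff₀ hc0] at hk
  have := hmono k5
  linarith

/-- The maximum modulus as a function of the logarithm of the radius. -/
theorem exists_max {g : ℂ → ℂ} (hg : Differentiable ℂ g) (hnc : ∃ z w, g z ≠ g w) :
    ∃ Φ : ℝ → ℝ, ConvexOn ℝ univ Φ ∧ (∀ t z, ‖z‖ ≤ Real.exp t → ‖g z‖ ≤ Real.exp (Φ t)) ∧
      (∀ t, ∃ z, ‖z‖ = Real.exp t ∧ ‖g z‖ = Real.exp (Φ t)) ∧ ∃ x y, x < y ∧ Φ x < Φ y := by
  have h1 : ∀ t : ℝ, ∃ z : ℂ, ‖z‖ = Real.exp t ∧ ∀ w, ‖w‖ ≤ Real.exp t → ‖g w‖ ≤ ‖g z‖ := by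
    intro t
    obtain ⟨z, hz, hmax⟩ := Complex.exists_mem_frontier_isMaxOn_norm (f := g)
      (U := ball (0 : ℂ) (Real.exp t)) isBounded_ball (nonempty_ball.2 (Real.exp_pos t))
      hg.diffContOnCl
    rw [frontier_ball _ (Real.exp_pos t).ne', mem_sphere_zero_iff_norm] at hz
    rw [closure_ball _ (Real.exp_pos t).ne'] at hmax
    exact ⟨z, hz, fun w hw => hmax (mem_closedBall_zero_iff.2 hw)⟩
  choose z hz hmax using h1
  have hpos : ∀ t, 0 < ‖g (z t)‖ := by
    intro t
    by_contra hn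
    have h2 : g =ᶠ[𝓝 0] 0 := by
      filter_upwards [closedBall_mem_nhds (0 : ℂ) (Real.exp_pos t)] with w hw
      have := hmax t w (mem_closedBall_zero_iff.1 hw)
      exact norm_le_zero_iff.1 (this.trans (not_lt.1 hn))
    have h3 := (hg.differentiableOn.analyticOnNhd isOpen_univ).eqOn_zero_of_preconnected_of_eventuallyEq_zero
      isPreconnected_univ (mem_univ 0) h2
    obtain ⟨u, v, huv⟩ := hnc
    exact huv ((h3 (mem_univ u)).trans (h3 (mem_univ v)).symm)
  have hexp : ∀ t, Real.exp (Real.log ‖g (z t)‖) = ‖g (z t)‖ := fun t => Real.exp_log (hpos t)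
  refine ⟨fun t => Real.log ‖g (z t)‖, ?_, fun t w hw => ?_, fun t => ⟨z t, hz t, ?_⟩, ?_⟩
  · refine LinearOrder.convexOn_of_lt convex_univ ?_
    intro l _ u _ hlu a b ha hb hab
    set t : ℝ := a • l + b • u with ht
    have ht' : t = l + b * (u - l) := by
      rw [ht, smul_eq_mul, smul_eq_mul, show a = 1 - b by linarith]; ring
    have hb1 : b < 1 := by linarith
    have hz0 : z t ≠ 0 := norm_pos_iff.1 (by rw [hz]; exact Real.exp_pos t)
    have hre : (Complex.log (z t)).re = t := by rw [Complex.log_re, hz, Real.log_exp]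
    have hF : Differentiable ℂ fun τ : ℂ => g (Complex.exp τ) := hg.comp Complex.differentiable_exp
    have h4 := Complex.HadamardThreeLines.norm_le_interp_of_mem_verticalClosedStrip'
      (f := fun τ : ℂ => g (Complex.exp τ)) (z := Complex.log (z t)) (a := ‖g (z l)‖)
      (b := ‖g (z u)‖) hlu ?_ hF.diffContOnCl ?_ ?_ ?_
    · rw [Complex.exp_log hz0, hre] at h4
      have h5 : (t - l) / (u - l) = b := by
        rw [ht', div_eq_iff (by linarith)]; ring
      rw [h5, show 1 - b = a by linarith] at h4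
      have h6 := Real.log_le_log (hpos t) h4
      rw [Real.log_mul (Real.rpow_pos_of_pos (hpos l) _).ne' (Real.rpow_pos_of_pos (hpos u) _).ne',
        Real.log_rpow (hpos l), Real.log_rpow (hpos u)] at h6
      simpa using h6
    · change (Complex.log (z t)).re ∈ Icc l u
      rw [hre, ht']
      constructor <;> nlinarith
    · refine ⟨‖g (z u)‖, ?_⟩
      rintro _ ⟨τ, hτ, rfl⟩
      refine hmax u _ ?_
      rw [Complex.norm_exp, Real.exp_le_exp]
      exact hτ.2
    · intro τ hτ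
      refine hmax l _ ?_
      rw [Complex.norm_exp, show τ.re = l from hτ]
    · intro τ hτ
      refine hmax u _ ?_
      rw [Complex.norm_exp, show τ.re = u from hτ]
  · rw [hexp]; exact hmax t w hw
  · rw [hexp]
  · by_contra hn
    push Not at hn
    obtain ⟨u, v, huv⟩ := hnc
    refine huv (hg.apply_eq_apply_of_bounded ?_ u v)
    refine (isBounded_closedBall (x := (0 : ℂ)) (r := ‖g (z 0)‖)).subset ?_
    rintro _ ⟨w, rfl⟩
    rw [mem_closedBall_zero_iff]
    have h2 : ‖w‖ ≤ Real.exp (‖w‖ + 1) := by linarith [Real.add_one_le_exp (‖w‖ + 1)]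
    refine (hmax _ w h2).trans ?_
    exact (Real.log_le_log_iff (hpos _) (hpos _)).1 (hn 0 (‖w‖ + 1) (by positivity))

end Pool.Agent.Lib.MP_5d54af_an.Sharp
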